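import Mathlib
import Pool.Agent.H84.EV.Laws

/-!
# The sum of square roots problem for every product distribution

One deterministic algorithm decides every instance (`∑ √d ≥ k`, `k` an integer). Let `x 0, ..., x (n - 1)` be independent
random natural numbers, `x i` with distribution `w i` on the finite set `A i`. Let `V` be a finite set of (heavy) values. The
number of the elements of `V` and of the entries `i` which take some value outside `V` with probability more than `θ` times
the probability that `x i` is not in `V` is at most `r`. If `1 / 2 ≤ θ` then with probability at least `1 - θ ^ m` all lists `y`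
which differ from `x` in at most `ρ` places are decided, for all thresholds `k`, in time
`Λ ^ (m + r + ρ * (2 * g * size n + 3))` times a polynomial, where `θ ^ g ≤ 1 / 2`. If in every `A i` the products of two
elements are squares (random coefficients, arbitrary radicands) then this holds for every `θ`, the mean time is polynomial if
`θ ≤ 1 / (2 Λ)`, and the moment of order `a` of the number of bits `max 0 (-log₂ |∑ √(y i) - k|)` is polynomial if
`θ ≤ 2 ^ (-a)`; here `y` and `k` may depend on `x`. If the entries have at most `t` different laws, which may be any laws at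
all, then with probability at least `1 - 2 * 2 ^ (-m)` the time is at most
`Λ ^ (m + t * (m + size n) + ρ * (2 * size n + 3))` times a polynomial (`t = 1`: identically distributed entries).
-/

set_option autoImplicit false

namespace Pool.Agent.Results.MP_dd013b_lc.EveryProductDistribution

open Pool.Agent.H92.SR Pool.Agent.H92.SR.Tr Pool.Agent.H8.SS

open Classical in
theorem result : ∃ (c : Prog) (T : List ℕ → ℤ → ℕ) (q : Polynomial ℕ) (Λ : ℕ), 1 ≤ Λ ∧
    (∀ (L : List ℕ) (k : ℤ),
      Eval c (encS L k) (bit (decide ((k : ℝ) ≤ (L.map fun a : ℕ => √(a : ℝ)).sum))) (T L k)) ∧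
    ∀ (n : ℕ) (N : Fin n → ℕ) (A : Fin n → Finset ℕ) (w : Fin n → ℕ → ℝ),
      (∀ i, ∀ a ∈ A i, a ≤ N i ∧ 0 ≤ w i a) → (∀ i, ∑ a ∈ A i, w i a = 1) →
      (∀ (θ : ℝ) (g r : ℕ) (V : Finset ℕ), 0 < θ → θ ^ g ≤ 1 / 2 →
        V.card + (Finset.univ.filter fun i => ∃ a ∈ A i \ V,
          θ * ∑ b ∈ A i \ V, w i b < w i a).card ≤ r →
        (1 / 2 ≤ θ → ∀ ρ m : ℕ,
          ∑ x ∈ (Fintype.piFinset A).filter (fun x => ∃ (y : Fin n → ℕ) (k : ℤ),
            (∀ i, y i ≤ N i) ∧ (Finset.univ.filter fun i => y i ≠ x i).card ≤ ρ ∧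
            q.eval (n + ∑ i, Nat.size (N i) + Nat.size k.natAbs) *
              Λ ^ (m + r + ρ * (2 * g * Nat.size n + 3)) < T (List.ofFn y) k),
            ∏ i, w i (x i) ≤ θ ^ m) ∧
        ((∀ i, ∀ x ∈ A i, ∀ y ∈ A i, IsSquare (x * y)) →
          (∀ ρ m : ℕ,
            ∑ x ∈ (Fintype.piFinset A).filter (fun x => ∃ (y : Fin n → ℕ) (k : ℤ),
              (∀ i, y i ≤ N i) ∧ (Finset.univ.filter fun i => y i ≠ x i).card ≤ ρ ∧
              q.eval (n + ∑ i, Nat.size (N i) + Nat.size k.natAbs) *
                Λ ^ (m + r + ρ * (2 * g * Nat.size n + 3)) < T (List.ofFn y) k),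
              ∏ i, w i (x i) ≤ θ ^ m) ∧
          ∀ (ρ : ℕ) (y : (Fin n → ℕ) → Fin n → ℕ) (κ : (Fin n → ℕ) → ℤ),
            (∀ x ∈ Fintype.piFinset A, (∀ i, y x i ≤ N i) ∧
              (Finset.univ.filter fun i => y x i ≠ x i).card ≤ ρ) →
            (2 * Λ * θ ≤ 1 → ∀ B : ℕ,
              (∀ x ∈ Fintype.piFinset A, Nat.size (κ x).natAbs ≤ B) →
              ∑ x ∈ Fintype.piFinset A, (∏ i, w i (x i)) * (T (List.ofFn (y x)) (κ x) : ℝ) ≤
                ((q.eval (n + ∑ i, Nat.size (N i) + B) *
                  Λ ^ (r + ρ * (2 * g * Nat.size n + 3)) : ℕ) : ℝ)) ∧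
            ∀ a : ℝ, 0 ≤ a → 2 ^ a * θ ≤ 1 →
              ∑ x ∈ Fintype.piFinset A, (∏ i, w i (x i)) *
                max 0 (-Real.logb 2 |∑ i, √(y x i : ℝ) - κ x|) ^ a ≤
                (n + 2) * (8 * (∑ i, Nat.size (N i) + 2 : ℕ) *
                  2 ^ (r + ρ * (2 * g * Nat.size n + 3))) ^ a)) ∧
      (∀ t : ℕ, ((Finset.univ : Finset (Fin n)).image fun i => (A i, w i)).card ≤ t → ∀ ρ m : ℕ,
        ∑ x ∈ (Fintype.piFinset A).filter (fun x => ∃ (y : Fin n → ℕ) (k : ℤ),
          (∀ i, y i ≤ N i) ∧ (Finset.univ.filter fun i => y i ≠ x i).card ≤ ρ ∧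
          q.eval (n + ∑ i, Nat.size (N i) + Nat.size k.natAbs) *
            Λ ^ (m + t * (m + Nat.size n) + ρ * (2 * Nat.size n + 3)) < T (List.ofFn y) k),
          ∏ i, w i (x i) ≤ 2 * (1 / 2) ^ m) :=
  Pool.Agent.H84.EV.mainL

end Pool.Agent.Results.MP_dd013b_lc.EveryProductDistribution
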