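import Mathlib
import Pool.Agent.H41.RC.Iso

/-!
# The sum of square roots problem: hard instances are isolated, and polynomial time with a few random entries

One deterministic algorithm decides every instance of the sum of square roots problem (`∑ √d ≥ k`, the integer `k` has a
sign) in the time `T`. The instance `(y, k)`, `y ≤ N`, is `M`-hard if the time is more than `q(s + |k|) Λ ^ M`,
`s = n + ∑ |N i|`.

* Two `M`-hard instances whose lists differ in at most `M` places (or only in entries of at most `2 M` square classes, the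
  squares not counted) have the same value `∑ √(x i) - k`. If `1 ≤ M` and the lists differ in one entry only, it is a square in
  both.
* Let the list of the radicands have any distribution `μ` on the lists with entries at most `N`, and let `G` be a set of entries
  such that, given all the other entries, the entry gives the squares and any few further square classes a small probability
  (`Thin`); the entries outside `G` are arbitrary. After the drawing of the list an adversary who knows it may change `ρ`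
  entries and chooses the threshold. With probability at least `1 - θ ^ m` he finds no `M`-hard instance,
  `M = m + ρ (g size n + 1)`, and for this the set `G` only needs `M` elements, `θ ^ g ≤ 1 / 2`. If `2 Λ θ ≤ 1` the mean time
  is at most a polynomial times `Λ ^ (ρ (size n + 1)) + Λ ^ n θ ^ (|G| - ρ (size n + 1))`.
* If, given the other entries, entry `i` is uniform in a window of at least `w > m` consecutive positive numbers it is thin
  with `θ = 4 √((m + 1) / w)`.

The definitions are in `Pool.Agent.H41.RC.Few` and `Pool.Agent.H41.RC.Iso`: `lists N` is the set of the lists with entries at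
most `N`, `Sq C a` means that `a` or `c * a` for some `c ∈ C` is a square, `Thin N μ m θ i` means that for every set `C` of at
most `m` positive numbers the conditional probability of `Sq C` at place `i` given the other entries is at most `θ`,
`Win N μ w i` means that given the other entries entry `i` is uniform in some window of at least `w` consecutive positive
numbers, and `Hard T q Λ N M y k` means that `(y, k)` is `M`-hard.
-/

set_option autoImplicit false

namespace Pool.Agent.Results.MP_dd013b_lc.FewRandomEntries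

open Pool.Agent.H92.SR Pool.Agent.H92.SR.Tr Pool.Agent.H8.SS Pool.Agent.H41.RC

open Classical in
theorem result : ∃ (c : Prog) (T : List ℕ → ℤ → ℕ) (q : Polynomial ℕ) (Λ : ℕ), 1 ≤ Λ ∧
    (∀ (L : List ℕ) (k : ℤ),
      Eval c (encS L k) (bit (decide ((k : ℝ) ≤ (L.map fun a : ℕ => √(a : ℝ)).sum))) (T L k)) ∧
    (∀ (n : ℕ) (N : Fin n → ℕ) (M : ℕ) (x y : Fin n → ℕ) (k l : ℤ), (∀ i, x i ≤ N i) →
      (∀ i, y i ≤ N i) → Hard T q Λ N M x k → Hard T q Λ N M y l →
      ((Finset.univ.filter fun i => x i ≠ y i).card ≤ M →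
        ∑ i, √(x i : ℝ) - k = ∑ i, √(y i : ℝ) - l) ∧
      (∀ D : Finset ℕ, 0 ∉ D → D.card ≤ 2 * M → (∀ i, x i ≠ y i → Sq D (x i) ∧ Sq D (y i)) →
        ∑ i, √(x i : ℝ) - k = ∑ i, √(y i : ℝ) - l) ∧
      (1 ≤ M → ∀ i, x i ≠ y i → (∀ j, j ≠ i → x j = y j) → IsSquare (x i) ∧ IsSquare (y i))) ∧
    ∀ (n : ℕ) (N : Fin n → ℕ) (μ : (Fin n → ℕ) → ℝ), (∀ x ∈ lists N, 0 ≤ μ x) →
      ∑ x ∈ lists N, μ x = 1 →
      (∀ θ : ℝ, 0 ≤ θ → ∀ (G : Finset (Fin n)) (ρ : ℕ),
        (∀ g m : ℕ, θ ^ g ≤ 1 / 2 → m + ρ * (g * Nat.size n + 1) ≤ G.card →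
          (∀ i ∈ G, Thin N μ (m + ρ * (g * Nat.size n + 1)) θ i) →
          ∑ x ∈ (lists N).filter (fun x => ∃ (y : Fin n → ℕ) (k : ℤ), (∀ i, y i ≤ N i) ∧
            (Finset.univ.filter fun i => y i ≠ x i).card ≤ ρ ∧
            Hard T q Λ N (m + ρ * (g * Nat.size n + 1)) y k), μ x ≤ θ ^ m) ∧
        ((∀ i ∈ G, Thin N μ G.card θ i) → 2 * Λ * θ ≤ 1 →
          ∀ (B : ℕ) (y : (Fin n → ℕ) → Fin n → ℕ) (κ : (Fin n → ℕ) → ℤ),
          (∀ x ∈ lists N, (∀ i, y x i ≤ N i) ∧
            (Finset.univ.filter fun i => y x i ≠ x i).card ≤ ρ ∧ Nat.size (κ x).natAbs ≤ B) →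
          ∑ x ∈ lists N, μ x * (T (List.ofFn (y x)) (κ x) : ℝ) ≤
            (q.eval (n + ∑ i, Nat.size (N i) + B) : ℕ) * ((Λ : ℝ) ^ (ρ * (Nat.size n + 1)) +
              (Λ : ℝ) ^ n * θ ^ (G.card - ρ * (Nat.size n + 1))))) ∧
      ∀ (i : Fin n) (w m : ℕ), Win N μ w i → m + 1 ≤ w →
        Thin N μ m (4 * √((m + 1 : ℝ) / w)) i := by
  obtain ⟨c, T, q, Λ, hΛ, hE, h1, h2⟩ := mainG
  exact ⟨c, T, q, Λ, hΛ, hE, h1, fun n N μ hμ hμ1 =>
    ⟨h2 n N μ hμ hμ1, fun i w m hw hm => thin_win hw hm⟩⟩

end Pool.Agent.Results.MP_dd013b_lc.FewRandomEntries
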