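import Mathlib
import Pool.Agent.H41.RC.RkMain

/-!
# The sum of square roots problem: for every list of radicands the hard coefficient vectors lie in small subspaces

One deterministic algorithm decides every instance (`∑ √d ≥ k`, `k` an integer). Let `a` be any list of `n` numbers and `J` a
set of indices such that the `a i` and the `a i * a j`, `i ≠ j` in `J`, are not squares. For every bound `2 ^ B` on the
coefficients there are subspaces `V 0 ≥ V 1 ≥ ...` of `ℚ ^ n` such that every instance `∑ z i √(a i) ≥ k` with coefficients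
`z` outside `V m` is decided, for all `k`, in time `Λ ^ m` times a polynomial, while `V m` contains no nonzero vector with
support in a subset `S` of `J` whose square classes are generated by at most `m` members of `J` (`Rk a J m S`). So `V m` has
codimension at least `S.card`, which can be `2 ^ m - 1`, and contains at most `n - S.card` points of the moment curve and few
of the vectors with entries `0` and `1` (the sublists).
-/

set_option autoImplicit false

namespace Pool.Agent.Results.MP_dd013b_lc.HardSubspaces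

open Pool.Agent.H92.SR Pool.Agent.H92.SR.Tr Pool.Agent.H8.SS Pool.Agent.H41.RC

open Classical in
theorem result : ∃ (c : Prog) (T : List ℕ → ℤ → ℕ) (q : Polynomial ℕ) (Λ : ℕ), 1 ≤ Λ ∧
    (∀ (L : List ℕ) (k : ℤ),
      Eval c (encS L k) (bit (decide ((k : ℝ) ≤ (L.map fun a : ℕ => √(a : ℝ)).sum))) (T L k)) ∧
    ∀ (n : ℕ) (a : Fin n → ℕ) (J : Finset (Fin n)), (∀ i ∈ J, ¬ IsSquare (a i)) →
      (∀ i ∈ J, ∀ j ∈ J, i ≠ j → ¬ IsSquare (a i * a j)) →
      ∀ B : ℕ, ∃ V : ℕ → Submodule ℚ (Fin n → ℚ), Antitone V ∧ ∀ m : ℕ,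
        (∀ z : Fin n → ℤ, (∀ i, |z i| ≤ 2 ^ B) → (fun i => (z i : ℚ)) ∉ V m → ∀ k : ℤ,
          1 ≤ |∑ i, (z i : ℝ) * √(a i : ℝ) - k| *
            2 ^ (q.eval (n + ∑ i, Nat.size (a i) + B) * 2 ^ m) ∧
          ((∀ i, 0 ≤ z i) → T (List.ofFn fun i => (z i).toNat ^ 2 * a i) k ≤
            q.eval (n + ∑ i, Nat.size (a i) + B + Nat.size k.natAbs) * Λ ^ m)) ∧
        (∀ S ⊆ J, Rk a J m S →
          (∀ y ∈ V m, (∀ i ∉ S, y i = 0) → y = 0) ∧
          Module.finrank ℚ (V m) + S.card ≤ n ∧
          (S.Nonempty → ∀ τ : Finset ℕ, (∀ t ∈ τ, (fun i : Fin n => (t : ℚ) ^ (i : ℕ)) ∈ V m) →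
            τ.card + S.card ≤ n)) ∧
        (∀ E : Finset (Finset (Fin n)), (∀ X ∈ E, X ⊆ J) →
          (∀ X ∈ E, ∀ Y ∈ E, Rk a J m (symmDiff X Y)) →
          (Finset.univ.filter fun S : Finset (Fin n) =>
            (fun i => if i ∈ S then (1 : ℚ) else 0) ∈ V m).card * E.card ≤ 2 ^ n) ∧
        (J.card ≤ 2 * m + 1 → (Finset.univ.filter fun S : Finset (Fin n) =>
            (fun i => if i ∈ S then (1 : ℚ) else 0) ∈ V m).card * 2 ^ J.card ≤
              2 * (m + 1) * 2 ^ n) :=
  Pool.Agent.H41.RC.rkMain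

end Pool.Agent.Results.MP_dd013b_lc.HardSubspaces
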