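import Mathlib
import Pool.Agent.H84.KV.Fin

/-!
# The sum of square roots problem: the values of the `K` best solutions of random problems

One deterministic algorithm decides every instance (`∑ √d ≥ k`, `k` an integer). Let the solutions of an optimisation problem be
the members `c` of any set `F` of vectors of natural numbers, with the value `val c x = ∑ c i * √(x i)` (`σ = true`: minimum,
`σ = false`: maximum). Let `x 0, ..., x (n - 1)` be independent random natural numbers, `x i` with distribution `w i` on the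
finite set `A i`. Let `V` be a finite set of (heavy) values, and let at most `ρ` be the number of the elements of `V` and of
the entries `i` which take some value outside `V` with probability more than `θ` times the probability that `x i` is not in
`V`. Then with probability at least `1 - K * (4 * (n + 1) * (r + 1) * θ) ^ m`, for all solutions `c ≤ r` among the `K` best and all thresholds `k` the question
`k ≤ val c x` is decided in time `Λ ^ (m + ρ)` times a polynomial, and if `8 * Λ * (n + 1) * (r + 1) * θ ≤ 1` the mean time is at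
most `K * Λ ^ ρ` times a polynomial, for every choice of such a solution and of a threshold as functions of `x`.
-/

set_option autoImplicit false

namespace Pool.Agent.Results.MP_dd013b_lc.OptimalSolutions

open Pool.Agent.H92.SR Pool.Agent.H92.SR.Tr Pool.Agent.H8.SS Pool.Agent.H84.OS Pool.Agent.H84.KB

open Classical in
theorem result : ∃ (c : Prog) (T : List ℕ → ℤ → ℕ) (q : Polynomial ℕ) (Λ : ℕ), 1 ≤ Λ ∧
    (∀ (L : List ℕ) (k : ℤ),
      Eval c (encS L k) (bit (decide ((k : ℝ) ≤ (L.map fun a : ℕ => √(a : ℝ)).sum))) (T L k)) ∧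
    ∀ (n r s ρ K : ℕ) (A : Fin n → Finset ℕ) (w : Fin n → ℕ → ℝ) (θ : ℝ), Nat.size r ≤ s →
      (∀ i, ∀ a ∈ A i, Nat.size a ≤ s ∧ 0 ≤ w i a) → (∀ i, ∑ a ∈ A i, w i a = 1) → 0 ≤ θ →
      ∀ V : Finset ℕ, V.card + (Finset.univ.filter fun i => ∃ a ∈ A i \ V,
        θ * ∑ b ∈ A i \ V, w i b < w i a).card ≤ ρ → ∀ (σ : Bool) (F : Set (Fin n → ℕ)),
      (∀ m : ℕ, ∑ x ∈ (Fintype.piFinset A).filter (fun x => ∃ (c : Fin n → ℕ) (k : ℤ), Best σ K F c x ∧
          (∀ i, c i ≤ r) ∧ q.eval (n + s + Nat.size k.natAbs) * Λ ^ (m + ρ) < T (lst c x) k),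
        ∏ i, w i (x i) ≤ K * (4 * (n + 1) * (r + 1) * θ) ^ m) ∧
      (8 * Λ * (n + 1) * (r + 1) * θ ≤ 1 →
        ∀ (B : ℕ) (g : (Fin n → ℕ) → Fin n → ℕ) (k : (Fin n → ℕ) → ℤ),
        (∀ x ∈ Fintype.piFinset A, Best σ K F (g x) x ∧ (∀ i, g x i ≤ r) ∧ Nat.size (k x).natAbs ≤ B) →
        ∑ x ∈ Fintype.piFinset A, (∏ i, w i (x i)) * (T (lst (g x) x) (k x) : ℝ) ≤
          ((K * q.eval (n + s + B) * Λ ^ ρ : ℕ) : ℝ)) :=
  Pool.Agent.H84.KV.mainKV

end Pool.Agent.Results.MP_dd013b_lc.OptimalSolutions
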